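import Mathlib

/-! The proportion of the non-degenerate forms among the symmetric forms over `𝔽₂` with given values
on a subspace. -/

set_option autoImplicit false

namespace Pool.Agent.Y697.PP

open Finset Module

variable {V : Type} [AddCommGroup V] [Module (ZMod 2) V] [Finite V]

/-- the products `(1 - 1/2)(1 - 1/8)⋯` -/
noncomputable def gg : ℕ → ℝ
  | 0 => 1
  | t + 1 => gg t * (if Even t then 1 - 1 / 2 ^ (t + 1) else 1)

theorem gg_nonneg (t : ℕ) : 0 ≤ gg t := by
  induction t with
  | zero => exact zero_le_one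
  | succ t ih =>
    rw [gg]
    apply mul_nonneg ih
    split_ifs
    · rw [sub_nonneg, div_le_one (by positivity)]
      exact one_le_pow₀ (by norm_num)
    · exact zero_le_one

theorem gg_anti (t : ℕ) : gg (t + 1) ≤ gg t := by
  rw [gg]
  refine mul_le_of_le_one_right (gg_nonneg t) ?_
  split_ifs
  · have : (0 : ℝ) ≤ 1 / 2 ^ (t + 1) := by positivity
    linarith
  · exact le_rfl

theorem gg_rec (t : ℕ) : gg (t + 2) = 1 / 2 * gg (t + 1) + (1 / 2 - 1 / 2 ^ (t + 2)) * gg t := by
  rw [show gg (t + 2) = gg (t + 1) * (if Even (t + 1) then 1 - 1 / 2 ^ (t + 1 + 1) else 1) from rfl,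
    show gg (t + 1) = gg t * (if Even t then 1 - 1 / 2 ^ (t + 1) else 1) from rfl]
  have h2 : (2 : ℝ) ^ (t + 1 + 1) = 2 * 2 ^ (t + 1) := pow_succ' 2 (t + 1)
  have h3 : (2 : ℝ) ^ (t + 2) = 2 * 2 ^ (t + 1) := pow_succ' 2 (t + 1)
  have h4 : (2 : ℝ) ^ (t + 1) ≠ 0 := by positivity
  rcases Nat.even_or_odd t with h | h
  · have h1 : ¬ Even (t + 1) := by rw [Nat.not_even_iff_odd]; exact h.add_one
    rw [if_pos h, if_neg h1, h3]
    field_simp
    ring
  · have h1 : Even (t + 1) := h.add_one
    rw [if_neg (by rw [Nat.not_even_iff_odd]; exact h), if_pos h1, h2]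
    field_simp
    ring

theorem gg_tail (n : ℕ) : gg 11 * (1 - (1 / 2 ^ 11 - 1 / 2 ^ (11 + n))) ≤ gg (11 + n) := by
  induction n with
  | zero => simp
  | succ n ih =>
    have h1 : gg (11 + n) * (1 - 1 / 2 ^ (11 + n + 1)) ≤ gg (11 + n + 1) := by
      rw [show gg (11 + n + 1) = gg (11 + n) *
        (if Even (11 + n) then 1 - 1 / 2 ^ (11 + n + 1) else 1) from rfl]
      refine mul_le_mul_of_nonneg_left ?_ (gg_nonneg _)
      have : (0 : ℝ) ≤ 1 / 2 ^ (11 + n + 1) := by positivity
      split_ifs <;> linarith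
    have h2 : (0 : ℝ) ≤ 1 - 1 / 2 ^ (11 + n + 1) := by
      rw [sub_nonneg, div_le_one (by positivity)]
      exact one_le_pow₀ (by norm_num)
    have h3 := mul_le_mul_of_nonneg_right ih h2
    have h4 := gg_nonneg 11
    have e1 : (1 : ℝ) / 2 ^ (11 + n) = 2 * (1 / 2 ^ (11 + n + 1)) := by
      rw [pow_succ]
      field_simp
    rw [show 11 + (n + 1) = 11 + n + 1 from rfl]
    set y : ℝ := 1 / 2 ^ (11 + n + 1) with hy
    have hy0 : 0 ≤ y := by positivity
    have hy1 : y ≤ 1 / 2 ^ 12 := by
      rw [hy]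
      apply one_div_le_one_div_of_le (by positivity)
      exact pow_le_pow_right₀ (by norm_num) (by omega)
    rw [e1] at h3
    refine le_trans ?_ (h3.trans h1)
    rw [mul_assoc]
    apply mul_le_mul_of_nonneg_left _ h4
    have h5 : 0 ≤ y * (1 / 2 ^ 11 - 2 * y) := mul_nonneg hy0 (by linarith)
    linarith

/-- the constant -/
theorem gg_ge (t : ℕ) : 0.4192 ≤ gg t := by
  have h11 : gg 11 = 1 / 2 * (7 / 8) * (31 / 32) * (127 / 128) * (511 / 512) * (2047 / 2048) := by
    simp only [gg]
    norm_num [Nat.even_iff]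
  have hanti : ∀ a b : ℕ, gg (a + b) ≤ gg a := by
    intro a b
    induction b with
    | zero => exact le_rfl
    | succ b ih => exact (gg_anti (a + b)).trans ih
  have h1 : ∀ n, 0.4192 ≤ gg (11 + n) := by
    intro n
    refine le_trans ?_ (gg_tail n)
    rw [h11]
    have hz : (0 : ℝ) ≤ 1 / 2 ^ (11 + n) := by positivity
    generalize (1 : ℝ) / 2 ^ (11 + n) = z at hz
    norm_num
    linarith
  rcases le_total t 11 with h | h
  · obtain ⟨b, hb⟩ := Nat.exists_eq_add_of_le h
    have h2 := hanti t b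
    rw [← hb] at h2
    exact (h1 0).trans h2
  · obtain ⟨b, rfl⟩ := Nat.exists_eq_add_of_le h
    exact h1 b

open Classical in
noncomputable instance : Fintype (LinearMap.BilinForm (ZMod 2) V) :=
  haveI : Finite (LinearMap.BilinForm (ZMod 2) V) := Finite.of_injective
    (fun (B : LinearMap.BilinForm (ZMod 2) V) (x y : V) => B x y) (fun _ _ h =>
      LinearMap.ext fun x => LinearMap.ext fun y => congrFun (congrFun h x) y)
  Fintype.ofFinite _

noncomputable instance : Fintype (Dual (ZMod 2) V) :=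
  haveI : Finite (Dual (ZMod 2) V) := Finite.of_injective
    (fun (B : Dual (ZMod 2) V) (x : V) => B x) (fun _ _ h => LinearMap.ext fun x => congrFun h x)
  Fintype.ofFinite _

/-- symmetric -/
def Sy (B : LinearMap.BilinForm (ZMod 2) V) : Prop := ∀ x y, B x y = B y x

/-- non-degenerate on `W` -/
def Nd (B : LinearMap.BilinForm (ZMod 2) V) (W : Submodule (ZMod 2) V) : Prop :=
  ∀ w ∈ W, B w = 0 → w = 0

open Classical in
/-- the forms which vanish on `W` -/
noncomputable def YY (W : Submodule (ZMod 2) V) : Finset (LinearMap.BilinForm (ZMod 2) V) :=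
  univ.filter fun Y => Sy Y ∧ ∀ w ∈ W, Y w = 0

open Classical in
/-- the completions which are not degenerate -/
noncomputable def NN (B : LinearMap.BilinForm (ZMod 2) V) (W : Submodule (ZMod 2) V) :
    Finset (LinearMap.BilinForm (ZMod 2) V) :=
  (YY W).filter fun Y => Nd (B + Y) ⊤

theorem mem_YY {W : Submodule (ZMod 2) V} {Y : LinearMap.BilinForm (ZMod 2) V} :
    Y ∈ YY W ↔ Sy Y ∧ ∀ w ∈ W, Y w = 0 := by
  classical
  unfold YY
  rw [Finset.mem_filter]
  exact ⟨fun h => h.2, fun h => ⟨Finset.mem_univ _, h⟩⟩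

theorem mem_NN {B : LinearMap.BilinForm (ZMod 2) V} {W : Submodule (ZMod 2) V}
    {Y : LinearMap.BilinForm (ZMod 2) V} :
    Y ∈ NN B W ↔ (Sy Y ∧ ∀ w ∈ W, Y w = 0) ∧ Nd (B + Y) ⊤ := by
  classical
  unfold NN
  rw [Finset.mem_filter, mem_YY]

/-- functionals that vanish on `W` -/
noncomputable def Ph (W : Submodule (ZMod 2) V) : Finset (Dual (ZMod 2) V) :=
  open Classical in univ.filter fun φ => ∀ w ∈ W, φ w = 0

theorem mem_Ph {W : Submodule (ZMod 2) V} {φ : Dual (ZMod 2) V} :
    φ ∈ Ph W ↔ ∀ w ∈ W, φ w = 0 := by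
  classical
  unfold Ph
  rw [Finset.mem_filter]
  exact ⟨fun h => h.2, fun h => ⟨Finset.mem_univ _, h⟩⟩

theorem two0 : (2 : ZMod 2) = 0 := rfl

theorem z2 (z : ZMod 2) : z = 0 ∨ z = 1 := by revert z; decide

omit [AddCommGroup V] [Module (ZMod 2) V] [Finite V] in
theorem add_self2 {M : Type} [AddCommGroup M] [Module (ZMod 2) M] (x : M) : x + x = 0 := by
  have : x + x = (2 : ZMod 2) • x := (two_smul _ x).symm
  rw [this, two0, zero_smul]

theorem add_add2 (Y₀ Y : LinearMap.BilinForm (ZMod 2) V) : Y₀ + (Y₀ + Y) = Y := by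
  ext x y
  simp only [LinearMap.add_apply]
  linear_combination (Y₀ x y) * two0

/-- a form with given row -/
theorem exists_row {W : Submodule (ZMod 2) V} {v : V} (hv : v ∉ W) (φ : Dual (ZMod 2) V)
    (hφ : ∀ w ∈ W, φ w = 0) :
    ∃ Y : LinearMap.BilinForm (ZMod 2) V, Y ∈ YY W ∧ Y v = φ := by
  obtain ⟨l, hl1, hl2⟩ := Submodule.exists_dual_map_eq_bot_of_notMem hv inferInstance
  have hlW : ∀ w ∈ W, l w = 0 := by
    intro w hw
    have : l w ∈ W.map l := ⟨w, hw, rfl⟩
    rw [hl2] at this
    exact (Submodule.mem_bot _).1 this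
  have hlv : l v = 1 := (z2 (l v)).resolve_left hl1
  refine ⟨LinearMap.mk₂ (ZMod 2) (fun x y => l x * φ y + l y * φ x + φ v * (l x * l y)) ?_ ?_ ?_ ?_,
    mem_YY.2 ⟨?_, ?_⟩, ?_⟩
  · intro a b c
    simp only [map_add]; ring
  · intro a b c
    simp only [map_smul, smul_eq_mul]; ring
  · intro a b c
    simp only [map_add]; ring
  · intro a b c
    simp only [map_smul, smul_eq_mul]; ring
  · intro x y
    simp only [LinearMap.mk₂_apply]
    ring
  · intro w hw
    ext y
    simp only [LinearMap.mk₂_apply, hlW w hw, hφ w hw, LinearMap.zero_apply]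
    ring
  · ext y
    simp only [LinearMap.mk₂_apply, hlv]
    linear_combination (φ v * l y) * two0

theorem card_fiber {W : Submodule (ZMod 2) V} {v : V} (hv : v ∉ W) (φ : Dual (ZMod 2) V)
    {Y₀ : LinearMap.BilinForm (ZMod 2) V} (hY₀ : Y₀ ∈ YY W) (hY₀v : Y₀ v = φ)
    (p : LinearMap.BilinForm (ZMod 2) V → Prop) [DecidablePred p]
    [DecidablePred fun Y : LinearMap.BilinForm (ZMod 2) V => p (Y₀ + Y)]
    [DecidablePred fun Y : LinearMap.BilinForm (ZMod 2) V => Y v = φ] :
    (((YY W).filter p).filter fun Y => Y v = φ).card =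
      ((YY (W ⊔ Submodule.span (ZMod 2) {v})).filter fun Y => p (Y₀ + Y)).card := by
  have hY0 := mem_YY.1 hY₀
  have hv' : v ∈ W ⊔ Submodule.span (ZMod 2) {v} :=
    Submodule.mem_sup_right (Submodule.mem_span_singleton_self v)
  symm
  refine Finset.card_bij' (fun Y _ => Y₀ + Y) (fun Y _ => Y₀ + Y) ?_ ?_ ?_ ?_
  · intro Y hY
    rw [Finset.mem_filter, mem_YY] at hY
    obtain ⟨⟨h1, h2⟩, h3⟩ := hY
    rw [Finset.mem_filter, Finset.mem_filter, mem_YY]
    refine ⟨⟨⟨fun x y => ?_, fun w hw => ?_⟩, h3⟩, ?_⟩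
    · rw [LinearMap.add_apply, LinearMap.add_apply, LinearMap.add_apply, LinearMap.add_apply,
        hY0.1 x y, h1 x y]
    · rw [LinearMap.add_apply, hY0.2 w hw, h2 w (Submodule.mem_sup_left hw), add_zero]
    · rw [LinearMap.add_apply, hY₀v, h2 v hv', add_zero]
  · intro Y hY
    rw [Finset.mem_filter, Finset.mem_filter, mem_YY] at hY
    obtain ⟨⟨⟨h1, h2⟩, h3⟩, h4⟩ := hY
    have e : Y₀ + (Y₀ + Y) = Y := add_add2 _ _
    rw [Finset.mem_filter, mem_YY]
    refine ⟨⟨fun x y => ?_, fun w hw => ?_⟩, ?_⟩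
    · rw [LinearMap.add_apply, LinearMap.add_apply, LinearMap.add_apply, LinearMap.add_apply,
        hY0.1 x y, h1 x y]
    · obtain ⟨w₁, hw₁, w₂, hw₂, rfl⟩ := Submodule.mem_sup.1 hw
      obtain ⟨c, rfl⟩ := Submodule.mem_span_singleton.1 hw₂
      rw [map_add, map_smul, LinearMap.add_apply, LinearMap.add_apply, hY0.2 w₁ hw₁, h2 w₁ hw₁,
        hY₀v, h4]
      have e1 : φ + φ = 0 := by
        have : φ + φ = (2 : ZMod 2) • φ := (two_smul _ φ).symm
        rw [this, two0, zero_smul]
      rw [e1, smul_zero, add_zero, add_zero]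
    · rw [e]
      exact h3
  · intro Y _
    exact add_add2 _ _
  · intro Y _
    exact add_add2 _ _

open Classical in
theorem card_YY {W : Submodule (ZMod 2) V} {v : V} (hv : v ∉ W) :
    (YY W).card = (Ph W).card * (YY (W ⊔ Submodule.span (ZMod 2) {v})).card := by
  rw [Finset.card_eq_sum_card_fiberwise (f := fun Y : LinearMap.BilinForm (ZMod 2) V => Y v)
    (t := Ph W) (by
      intro Y hY
      have h := mem_YY.1 hY
      refine mem_Ph.2 fun w hw => ?_
      rw [h.1, h.2 w hw, LinearMap.zero_apply])]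
  rw [← smul_eq_mul, ← Finset.sum_const]
  refine Finset.sum_congr rfl fun φ hφ => ?_
  obtain ⟨Y₀, h1, h2⟩ := exists_row hv φ (mem_Ph.1 hφ)
  have h3 := card_fiber hv φ h1 h2 (fun _ => True)
  simp only [Finset.filter_true] at h3
  exact h3

open Classical in
theorem card_NN {W : Submodule (ZMod 2) V} {v : V} (hv : v ∉ W)
    (B : LinearMap.BilinForm (ZMod 2) V) (c : Dual (ZMod 2) V → ℝ)
    (hc : ∀ φ ∈ Ph W, ∀ Y₀ : LinearMap.BilinForm (ZMod 2) V, Y₀ ∈ YY W → Y₀ v = φ →
      c φ ≤ (NN (B + Y₀) (W ⊔ Submodule.span (ZMod 2) {v})).card) :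
    ∑ φ ∈ Ph W, c φ ≤ (NN B W).card := by
  rw [Finset.card_eq_sum_card_fiberwise (f := fun Y : LinearMap.BilinForm (ZMod 2) V => Y v)
    (t := Ph W) (by
      intro Y hY
      have h := (mem_NN.1 hY).1
      refine mem_Ph.2 fun w hw => ?_
      rw [h.1, h.2 w hw, LinearMap.zero_apply])]
  push_cast
  refine Finset.sum_le_sum fun φ hφ => ?_
  obtain ⟨Y₀, h1, h2⟩ := exists_row hv φ (mem_Ph.1 hφ)
  have h3 := card_fiber hv φ h1 h2 (fun Y => Nd (B + Y) ⊤)
  have h4 := hc φ hφ Y₀ h1 h2
  have h5 : (NN (B + Y₀) (W ⊔ Submodule.span (ZMod 2) {v})).card =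
      ((YY (W ⊔ Submodule.span (ZMod 2) {v})).filter fun Y => Nd (B + (Y₀ + Y)) ⊤).card := by
    unfold NN
    congr 1
    refine Finset.filter_congr fun Y _ => ?_
    rw [add_assoc]
  rw [h5, ← h3] at h4
  exact h4

open Classical in
theorem card_Ph (W : Submodule (ZMod 2) V) {t : ℕ}
    (ht : finrank (ZMod 2) W + t = finrank (ZMod 2) V) : (Ph W).card = 2 ^ t := by
  have hfin : Module.Finite (ZMod 2) V := Module.Finite.of_finite
  have h1 : (Ph W).card = Nat.card W.dualAnnihilator := by
    rw [Nat.card_eq_fintype_card, ← Fintype.card_coe]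
    refine Fintype.card_congr (Equiv.subtypeEquivRight fun φ => ?_)
    rw [mem_Ph, Submodule.mem_dualAnnihilator]
  have h2 := Subspace.finrank_add_finrank_dualAnnihilator_eq (K := ZMod 2) W
  have h3 : finrank (ZMod 2) W.dualAnnihilator = t := by omega
  rw [h1, Module.natCard_eq_pow_finrank (K := ZMod 2), h3, Nat.card_zmod]

open Classical in
theorem card_half {W : Submodule (ZMod 2) V} {v : V} (hv : v ∉ W) (c : ZMod 2) :
    2 * ((Ph W).filter fun φ => c + φ v = 1).card = (Ph W).card := by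
  obtain ⟨l, hl1, hl2⟩ := Submodule.exists_dual_map_eq_bot_of_notMem hv inferInstance
  have hlW : ∀ w ∈ W, l w = 0 := by
    intro w hw
    have : l w ∈ W.map l := ⟨w, hw, rfl⟩
    rw [hl2] at this
    exact (Submodule.mem_bot _).1 this
  have hlv : l v = 1 := (z2 (l v)).resolve_left hl1
  have h1 : ((Ph W).filter fun φ => ¬ c + φ v = 1).card =
      ((Ph W).filter fun φ => c + φ v = 1).card := by
    refine Finset.card_bij' (fun φ _ => l + φ) (fun φ _ => l + φ) ?_ ?_ ?_ ?_
    · intro φ hφ
      rw [Finset.mem_filter, mem_Ph] at hφ ⊢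
      refine ⟨fun w hw => by rw [LinearMap.add_apply, hlW w hw, hφ.1 w hw, add_zero], ?_⟩
      rw [LinearMap.add_apply, hlv]
      have h2 := (z2 (c + φ v)).resolve_right hφ.2
      linear_combination h2
    · intro φ hφ
      rw [Finset.mem_filter, mem_Ph] at hφ ⊢
      refine ⟨fun w hw => by rw [LinearMap.add_apply, hlW w hw, hφ.1 w hw, add_zero], ?_⟩
      rw [LinearMap.add_apply, hlv]
      have h2 : c + (1 + φ v) = 0 := by linear_combination hφ.2 + two0
      rw [h2]
      decide
    · intro φ _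
      show l + (l + φ) = φ
      ext x
      simp only [LinearMap.add_apply]
      linear_combination (l x) * two0
    · intro φ _
      show l + (l + φ) = φ
      ext x
      simp only [LinearMap.add_apply]
      linear_combination (l x) * two0
  have h2 := Finset.card_filter_add_card_filter_not (s := Ph W) (fun φ => c + φ v = 1)
  omega

theorem Sy.add {B Y : LinearMap.BilinForm (ZMod 2) V} (hB : Sy B) (hY : Sy Y) : Sy (B + Y) := by
  intro x y
  simp only [LinearMap.add_apply]
  rw [hB x y, hY x y]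

theorem mem_sup_iff {W : Submodule (ZMod 2) V} {v x : V}
    (hx : x ∈ W ⊔ Submodule.span (ZMod 2) {v}) : x ∈ W ∨ ∃ w ∈ W, x = w + v := by
  obtain ⟨w, hw, w₂, hw₂, rfl⟩ := Submodule.mem_sup.1 hx
  obtain ⟨c, rfl⟩ := Submodule.mem_span_singleton.1 hw₂
  rcases z2 c with rfl | rfl
  · left; rw [zero_smul, add_zero]; exact hw
  · right; exact ⟨w, hw, by rw [one_smul]⟩

/-- extension when there is a radical -/
theorem nd_one {B Y : LinearMap.BilinForm (ZMod 2) V} {W : Submodule (ZMod 2) V} (hB : Sy B)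
    (hN : Nd B W) (hY : Y ∈ YY W) {r v : V} (hr : r ∈ W) (hrW : ∀ w ∈ W, B r w = 0)
    (hrv : B r v = 1) : Nd (B + Y) (W ⊔ Submodule.span (ZMod 2) {v}) := by
  have hY' := mem_YY.1 hY
  intro x hx hx0
  rcases mem_sup_iff hx with h | ⟨w, hw, rfl⟩
  · apply hN x h
    rw [LinearMap.add_apply, hY'.2 x h, add_zero] at hx0
    exact hx0
  · exfalso
    have h1 : (B + Y) (w + v) r = 0 := by rw [hx0, LinearMap.zero_apply]
    rw [LinearMap.add_apply, LinearMap.add_apply, map_add, LinearMap.add_apply, hB w r,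
      hrW w hw, hB v r, hrv, hY'.1 (w + v) r, hY'.2 r hr, LinearMap.zero_apply] at h1
    revert h1
    decide

/-- extension when there is no radical -/
theorem nd_two {B Y : LinearMap.BilinForm (ZMod 2) V} {W : Submodule (ZMod 2) V} (hB : Sy B)
    (hR : ∀ r ∈ W, (∀ w ∈ W, B r w = 0) → r = 0) (hY : Y ∈ YY W) {v : V}
    (hv : ∀ w ∈ W, B v w = 0) (hv0 : (B + Y) v ≠ 0) :
    Nd (B + Y) (W ⊔ Submodule.span (ZMod 2) {v}) := by
  have hY' := mem_YY.1 hY
  intro x hx hx0
  rcases mem_sup_iff hx with h | ⟨w, hw, rfl⟩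
  · apply hR x h
    intro w hw
    have h1 : (B + Y) x w = 0 := by rw [hx0, LinearMap.zero_apply]
    rw [LinearMap.add_apply, LinearMap.add_apply, hY'.2 x h, LinearMap.zero_apply, add_zero] at h1
    exact h1
  · exfalso
    have h2 : w = 0 := by
      apply hR w hw
      intro w' hw'
      have h1 : (B + Y) (w + v) w' = 0 := by rw [hx0, LinearMap.zero_apply]
      rw [LinearMap.add_apply, LinearMap.add_apply, map_add, LinearMap.add_apply, hv w' hw',
        hY'.1 (w + v) w', hY'.2 w' hw', LinearMap.zero_apply, add_zero, add_zero] at h1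
      exact h1
    rw [h2, zero_add] at hx0
    exact hv0 hx0

theorem finrank_sup {W : Submodule (ZMod 2) V} {v : V} (hv : v ∉ W) {t : ℕ}
    (ht : finrank (ZMod 2) W + (t + 1) = finrank (ZMod 2) V) :
    finrank (ZMod 2) (W ⊔ Submodule.span (ZMod 2) {v} : Submodule (ZMod 2) V) + t =
      finrank (ZMod 2) V := by
  have hfin : Module.Finite (ZMod 2) V := Module.Finite.of_finite
  have h1 := Submodule.finrank_sup_add_finrank_inf_eq W (Submodule.span (ZMod 2) {v})
  have h2 : W ⊓ Submodule.span (ZMod 2) {v} = ⊥ := by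
    rw [Submodule.eq_bot_iff]
    intro x hx
    rw [Submodule.mem_inf] at hx
    obtain ⟨c, rfl⟩ := Submodule.mem_span_singleton.1 hx.2
    rcases z2 c with rfl | rfl
    · rw [zero_smul]
    · rw [one_smul] at hx
      exact absurd hx.1 hv
  have h3 : finrank (ZMod 2) (Submodule.span (ZMod 2) {v}) = 1 :=
    finrank_span_singleton (fun h => hv (by rw [h]; exact W.zero_mem))
  rw [h2, finrank_bot, h3] at h1
  omega

/-- a vector orthogonal to `W` -/
theorem exists_orth {B : LinearMap.BilinForm (ZMod 2) V} {W : Submodule (ZMod 2) V} (hB : Sy B)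
    (hR : ∀ r ∈ W, (∀ w ∈ W, B r w = 0) → r = 0) (hW : W ≠ ⊤) :
    ∃ v, v ∉ W ∧ ∀ w ∈ W, B v w = 0 := by
  have hfin : Module.Finite (ZMod 2) V := Module.Finite.of_finite
  obtain ⟨x, hx⟩ : ∃ x, x ∉ W := by
    by_contra h
    push Not at h
    exact hW (eq_top_iff.2 fun x _ => h x)
  let f : W →ₗ[ZMod 2] Dual (ZMod 2) W := (B.domRestrict W).compr₂ LinearMap.id |>.flip.domRestrict W |>.flip
  have hf : ∀ a b : W, f a b = B a b := fun a b => rfl
  have hinj : Function.Injective f := by
    rw [← LinearMap.ker_eq_bot, Submodule.eq_bot_iff]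
    intro a ha
    rw [LinearMap.mem_ker] at ha
    apply Subtype.ext
    apply hR a a.2
    intro w hw
    rw [← hf a ⟨w, hw⟩, ha, LinearMap.zero_apply]
  have hsurj : Function.Surjective f :=
    (LinearMap.injective_iff_surjective_of_finrank_eq_finrank
      (Subspace.dual_finrank_eq (K := ZMod 2) (V := W)).symm).1 hinj
  obtain ⟨w₀, hw₀⟩ := hsurj ((B x).domRestrict W)
  refine ⟨w₀ + x, fun h => hx ?_, fun w hw => ?_⟩
  · have := W.sub_mem h w₀.2
    rwa [add_sub_cancel_left] at this
  · have h1 : f w₀ ⟨w, hw⟩ = B x w := by rw [hw₀]; rfl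
    rw [hf] at h1
    rw [map_add, LinearMap.add_apply]
    have h2 : B w₀ w = B x w := h1
    rw [h2]
    linear_combination (B x w) * two0

open Classical in
theorem main_cmp (t : ℕ) : (∀ (B : LinearMap.BilinForm (ZMod 2) V) (W : Submodule (ZMod 2) V),
      Sy B → Nd B W → finrank (ZMod 2) W + t = finrank (ZMod 2) V →
      gg t * (YY W).card ≤ (NN B W).card) ∧
    (∀ (B : LinearMap.BilinForm (ZMod 2) V) (W : Submodule (ZMod 2) V),
      Sy B → Nd B W → finrank (ZMod 2) W + t = finrank (ZMod 2) V →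
      (∃ r ∈ W, r ≠ 0 ∧ ∀ w ∈ W, B r w = 0) → gg (t - 1) * (YY W).card ≤ (NN B W).card) := by
  have hfin : Module.Finite (ZMod 2) V := Module.Finite.of_finite
  induction t with
  | zero =>
    have htop : ∀ W : Submodule (ZMod 2) V, finrank (ZMod 2) W + 0 = finrank (ZMod 2) V →
        W = ⊤ := fun W h => Submodule.eq_top_of_finrank_eq (by simpa using h)
    constructor
    · intro B W hB hN ht
      obtain rfl := htop W ht
      have h1 : YY (⊤ : Submodule (ZMod 2) V) ⊆ NN B ⊤ := by
        intro Y hY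
        have hY' := mem_YY.1 hY
        refine mem_NN.2 ⟨hY', fun x hx hx0 => hN x hx ?_⟩
        rw [LinearMap.add_apply, hY'.2 x hx, add_zero] at hx0
        exact hx0
      rw [gg, one_mul]
      exact_mod_cast Finset.card_le_card h1
    · intro B W hB hN ht ⟨r, hr, hr0, hrW⟩
      obtain rfl := htop W ht
      exact absurd (hN r hr (LinearMap.ext fun w => hrW w trivial)) hr0
  | succ t ih =>
    obtain ⟨ihP, ihQ⟩ := ih
    have hQ : ∀ (B : LinearMap.BilinForm (ZMod 2) V) (W : Submodule (ZMod 2) V),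
        Sy B → Nd B W → finrank (ZMod 2) W + (t + 1) = finrank (ZMod 2) V →
        (∃ r ∈ W, r ≠ 0 ∧ ∀ w ∈ W, B r w = 0) → gg t * (YY W).card ≤ (NN B W).card := by
      intro B W hB hN ht ⟨r, hr, hr0, hrW⟩
      obtain ⟨v, hrv⟩ : ∃ v, B r v = 1 := by
        by_contra h
        push Not at h
        exact hr0 (hN r hr (LinearMap.ext fun w => (z2 (B r w)).resolve_right (h w)))
      have hv : v ∉ W := fun h => by rw [hrW v h] at hrv; exact absurd hrv (by decide)
      have h1 := card_NN hv B (fun _ => gg t * (YY (W ⊔ Submodule.span (ZMod 2) {v})).card) (by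
        intro φ _ Y₀ hY₀ _
        exact ihP _ _ (hB.add (mem_YY.1 hY₀).1) (nd_one hB hN hY₀ hr hrW hrv) (finrank_sup hv ht))
      rw [Finset.sum_const, nsmul_eq_mul] at h1
      rw [card_YY hv]
      push_cast
      linarith
    refine ⟨?_, fun B W hB hN ht h => hQ B W hB hN ht h⟩
    intro B W hB hN ht
    by_cases hRad : ∃ r ∈ W, r ≠ 0 ∧ ∀ w ∈ W, B r w = 0
    · exact (mul_le_mul_of_nonneg_right (gg_anti t) (Nat.cast_nonneg _)).trans
        (hQ B W hB hN ht hRad)
    have hR : ∀ r ∈ W, (∀ w ∈ W, B r w = 0) → r = 0 := by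
      intro r hr h
      by_contra h0
      exact hRad ⟨r, hr, h0, h⟩
    have hWtop : W ≠ ⊤ := by
      rintro rfl
      rw [finrank_top] at ht
      omega
    obtain ⟨v, hv, hvW⟩ := exists_orth hB hR hWtop
    set C : ℝ := ((YY (W ⊔ Submodule.span (ZMod 2) {v})).card : ℝ) with hC
    have hC0 : 0 ≤ C := Nat.cast_nonneg _
    have hBv : B v ∈ Ph W := mem_Ph.2 hvW
    have h1 := card_NN hv B (fun φ => if B v v + φ v = 1 then gg t * C else
      if B v + φ = 0 then 0 else gg (t - 1) * C) (by
        intro φ hφ Y₀ hY₀ hY₀v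
        have e1 : (B + Y₀) v = B v + φ := by rw [LinearMap.add_apply, hY₀v]
        split_ifs with q1 q2
        · refine ihP _ _ (hB.add (mem_YY.1 hY₀).1) (nd_two hB hR hY₀ hvW ?_) (finrank_sup hv ht)
          intro h
          rw [e1] at h
          have h2 : (B v + φ) v = 0 := by rw [h, LinearMap.zero_apply]
          rw [LinearMap.add_apply, q1] at h2
          exact absurd h2 (by decide)
        · exact Nat.cast_nonneg _
        · refine ihQ _ _ (hB.add (mem_YY.1 hY₀).1) (nd_two hB hR hY₀ hvW (by rw [e1]; exact q2))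
            (finrank_sup hv ht) ⟨v, Submodule.mem_sup_right (Submodule.mem_span_singleton_self v),
              fun h => hv (by rw [h]; exact W.zero_mem), ?_⟩
          have q3 : B v v + φ v = 0 := (z2 _).resolve_right q1
          intro w hw
          rw [e1, LinearMap.add_apply]
          rcases mem_sup_iff hw with h | ⟨w', hw', rfl⟩
          · rw [hvW w h, mem_Ph.1 hφ w h, add_zero]
          · rw [map_add, map_add, hvW w' hw', mem_Ph.1 hφ w' hw', zero_add, zero_add, q3])
    have h2 : ∑ φ ∈ Ph W, (if B v v + φ v = 1 then gg t * C else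
        if B v + φ = 0 then 0 else gg (t - 1) * C) =
        ((2 : ℝ) ^ t) * (gg t * C) + ((2 : ℝ) ^ t - 1) * (gg (t - 1) * C) := by
      have e1 : ∀ φ ∈ Ph W, (if B v v + φ v = 1 then gg t * C else
          if B v + φ = 0 then 0 else gg (t - 1) * C) =
          (if B v v + φ v = 1 then gg t * C else gg (t - 1) * C) -
          (if φ = B v then gg (t - 1) * C else 0) := by
        intro φ _
        have e3 : B v + φ = 0 ↔ φ = B v := by
          constructor
          · intro h
            ext x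
            have := congrArg (fun z : Dual (ZMod 2) V => z x) h
            simp only [LinearMap.add_apply, LinearMap.zero_apply] at this
            linear_combination this - (B v x) * two0
          · rintro rfl
            ext x
            simp only [LinearMap.add_apply, LinearMap.zero_apply]
            linear_combination (B v x) * two0
        by_cases q2 : φ = B v
        · have q1 : ¬ B v v + φ v = 1 := by
            rw [q2]
            intro h
            have : (1 : ZMod 2) = 0 := by linear_combination (B v v) * two0 - h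
            exact absurd this (by decide)
          rw [if_neg q1, if_pos (e3.2 q2), if_neg q1, if_pos q2, sub_self]
        · rw [if_neg q2, sub_zero, if_neg (fun h => q2 (e3.1 h))]
      rw [Finset.sum_congr rfl e1, Finset.sum_sub_distrib, Finset.sum_ite_eq' (Ph W) (B v),
        if_pos hBv, Finset.sum_ite, Finset.sum_const, Finset.sum_const]
      have e2 := card_half hv (B v v)
      have e3 := card_Ph W ht
      have e4 := Finset.card_filter_add_card_filter_not (s := Ph W)
        (fun φ : Dual (ZMod 2) V => B v v + φ v = 1)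
      have e5 : ((Ph W).filter fun φ : Dual (ZMod 2) V => B v v + φ v = 1).card = 2 ^ t := by
        rw [e3, pow_succ] at e2
        omega
      have e6 : ((Ph W).filter fun φ : Dual (ZMod 2) V => ¬ B v v + φ v = 1).card = 2 ^ t := by
        rw [e3, pow_succ] at e4
        omega
      rw [e5, e6]
      simp only [nsmul_eq_mul]
      push_cast
      ring
    rw [h2] at h1
    rw [card_YY hv, card_Ph W ht]
    push_cast
    refine le_trans (le_of_eq ?_) h1
    rw [← hC]
    rcases t with _ | t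
    · have : gg (0 + 1) = 1 / 2 := by
        show gg 0 * (if Even 0 then 1 - 1 / 2 ^ (0 + 1) else 1) = 1 / 2
        rw [if_pos (by decide : Even 0), show gg 0 = 1 from rfl]
        norm_num
      rw [this]
      simp only [show gg 0 = 1 from rfl]
      ring
    · rw [show t + 1 + 1 = t + 2 from rfl, gg_rec t, show t + 1 - 1 = t from rfl]
      have h3 : (2 : ℝ) ^ (t + 2) = 2 * 2 ^ (t + 1) := by ring
      have h4 : (2 : ℝ) ^ (t + 1) ≠ 0 := by positivity
      rw [h3]
      field_simp

end Pool.Agent.Y697.PP
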